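import Pool.Agent.Helper57.SJ.Stmts2
import Pool.Agent.Helper3.SI.LOW

set_option autoImplicit false

namespace Pool.Agent.Helper93.SJ

open MeasureTheory Set
open Pool.Agent.Helper57.QZ (Pr)
open Pool.Agent.Helper57.SI (zz ww D1 D2 Kk fej)

theorem st_LOWD (h1 : Pool.Agent.Helper57.SI.ST_FJ0) (h2 : Pool.Agent.Helper57.SI.ST_LB) :
    Pool.Agent.Helper57.SJ.ST_LOWD := by
  rintro η ⟨h0, hη1⟩
  obtain ⟨H1, hH1⟩ := h2 η h0
  obtain ⟨H2, hH2⟩ := Pool.Agent.Helper3.SI.zz_large 3
  refine ⟨max 3 (max H1 H2), le_max_left _ _, ?_⟩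
  intro H hH u α
  have hH3 : 3 ≤ H := (le_max_left _ _).trans hH
  have hHa : H1 ≤ H := ((le_max_left _ _).trans (le_max_right _ _)).trans hH
  have hHb : H2 ≤ H := ((le_max_right _ _).trans (le_max_right _ _)).trans hH
  have hint := hH1 H hHa u α
  obtain ⟨hz, hK⟩ := hH2 H hHb
  have hL : 0 < Real.log (zz H) := Real.log_pos (by linarith)
  by_contra hcon
  push Not at hcon
  have hle : ∀ t ∈ Icc u (u + H), 0 ≤ -(ww (zz H) (Kk H) α t *
      (1 - D1 (zz H) α t / η - D2 (zz H) α t / (η * Real.log (zz H)))) := by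
    intro t ht
    have hw : 0 ≤ ww (zz H) (Kk H) α t := Finset.prod_nonneg fun p _ => h1 _ _ hK
    have d1 := Pool.Agent.Helper3.SI.D1_nonneg (zz H) α t
    have d2 := Pool.Agent.Helper3.SI.D2_nonneg (zz H) α t
    have hηL : 0 < η * Real.log (zz H) := mul_pos h0 hL
    have e1 : 0 ≤ D1 (zz H) α t / η := div_nonneg d1 h0.le
    have e2 : 0 ≤ D2 (zz H) α t / (η * Real.log (zz H)) := div_nonneg d2 hηL.le
    have e3 : 1 - D1 (zz H) α t / η - D2 (zz H) α t / (η * Real.log (zz H)) ≤ 0 := by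
      by_cases hd : D1 (zz H) α t ≤ η
      · have h3 := hcon t ht hd
        have h4 : 1 ≤ D2 (zz H) α t / (η * Real.log (zz H)) := by
          rw [le_div_iff₀ hηL]
          linarith
        linarith
      · have h4 : 1 ≤ D1 (zz H) α t / η := by
          rw [le_div_iff₀ h0]
          linarith [not_le.1 hd]
        linarith
    have := mul_nonpos_of_nonneg_of_nonpos hw e3
    linarith
  have h5 := intervalIntegral.integral_nonneg (μ := volume) (by linarith : u ≤ u + H) hle
  rw [intervalIntegral.integral_neg] at h5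
  linarith

end Pool.Agent.Helper93.SJ
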